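import Mathlib
import Pool.Agent.N36.EPS.Gen

set_option autoImplicit false
set_option linter.unusedSectionVars false

namespace Pool.Agent.Results.MP_d1f1b8_al.Dense

open Pool.Agent.N36.EPS

/-- `ψ(G)`: the sum of the orders of the elements of `G`. -/
noncomputable def psi (G : Type) [Group G] [Fintype G] : ℕ := ∑ g : G, orderOf g

/-- `o(G)`: the average order of the elements of `G`. -/
noncomputable def avgOrder (G : Type) [Group G] [Fintype G] : ℝ :=
  (psi G : ℝ) / (Fintype.card G : ℝ)

section general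

variable {K B : Type} [Group K] [Fintype K] [Group B] [Fintype B]

open Classical in
/-- weight of an element of exponent dividing `8` -/
noncomputable def wt (k : K) : ℕ := if k ^ 4 = 1 then 4 else 8

lemma order_dvd (hK : ∀ k : K, k ^ 8 = 1) (k : K) (b : B) (r : ℕ) (hb : orderOf b ∣ 4 * r) :
    orderOf (k, b) ∣ wt k * r := by
  rw [Prod.orderOf]
  apply Nat.lcm_dvd
  · apply Dvd.dvd.mul_right
    unfold wt
    split_ifs with h
    · exact orderOf_dvd_of_pow_eq_one h
    · exact orderOf_dvd_of_pow_eq_one (hK k)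
  · refine hb.trans ?_
    apply Nat.mul_dvd_mul_right
    unfold wt
    split_ifs <;> norm_num

lemma order_eq (hK : ∀ k : K, k ^ 8 = 1) (k : K) (b : B) (r : ℕ) (hr : Odd r)
    (hb : orderOf b = 4 * r) : orderOf (k, b) = wt k * r := by
  apply Nat.dvd_antisymm
  · exact order_dvd hK k b r hb.dvd
  · rw [Prod.orderOf]
    unfold wt
    split_ifs with h
    · rw [← hb]
      exact Nat.dvd_lcm_right _ _
    · have h8 : orderOf k = 8 := by
        have h2 : orderOf k = 2 ^ (2 + 1) := by
          have : Fact (Nat.Prime 2) := ⟨Nat.prime_two⟩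
          apply orderOf_eq_prime_pow
          · simpa using h
          · simpa using hK k
        simpa using h2
      apply Nat.Coprime.mul_dvd_of_dvd_of_dvd
      · have h3 : Nat.Coprime 2 r := (Nat.coprime_two_left).2 hr
        have : Nat.Coprime (2 ^ 3) r := Nat.Coprime.pow_left 3 h3
        simpa using this
      · rw [h8]
        exact Nat.dvd_lcm_left _ _
      · refine Dvd.dvd.trans ?_ (Nat.dvd_lcm_right _ _)
        rw [hb]
        exact Dvd.intro_left 4 rfl

end general

open Classical in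
/-- sum of the weights in the group `KS S` -/
lemma sum_wt {d : ℕ} (S : Finset {j : E d // j ≠ 0}) [Fintype (KS S)] :
    (∑ k : KS S, (wt k : ℝ)) = 4 * (1 + (S.card : ℝ) / 2 ^ d) * Fintype.card (KS S) := by
  have h1 : ∀ k : KS S, (wt k : ℝ) =
      4 + ∑ j ∈ S, if (prK S k = Multiplicative.ofAdd j.1) then (4 : ℝ) else 0 := by
    intro k
    unfold wt
    by_cases h : k ^ 4 = 1
    · rw [if_pos h]
      have h2 := (powK_four_eq_one k).1 h
      rw [Finset.sum_eq_zero]
      · norm_num
      · intro j hj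
        rw [if_neg]
        intro h3
        exact h2 ⟨j, hj, by rw [h3]; rfl⟩
    · rw [if_neg h]
      have h2 : ∃ j ∈ S, j.1 = Multiplicative.toAdd (prK S k) := by
        by_contra hc
        exact h ((powK_four_eq_one k).2 hc)
      obtain ⟨j, hj, hjk⟩ := h2
      rw [Finset.sum_eq_single_of_mem j hj]
      · rw [if_pos (by rw [hjk]; rfl)]
        norm_num
      · intro b _ hb
        rw [if_neg]
        intro h3
        apply hb
        apply Subtype.ext
        rw [hjk, h3]
        rfl
  have hfib : ∀ e : Multiplicative (E d),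
      ((Finset.univ.filter (fun k : KS S => prK S k = e)).card : ℝ) * 2 ^ d
        = Fintype.card (KS S) := by
    intro e
    have h2 : ∀ e' : Multiplicative (E d),
        (Finset.univ.filter (fun k : KS S => prK S k = e')).card
          = (Finset.univ.filter (fun k : KS S => prK S k = e)).card := by
      intro e'
      exact MonoidHom.card_fiber_eq_of_mem_range (prK S) (prK_surj e') (prK_surj e)
    have h3 : Fintype.card (KS S) = ∑ e' : Multiplicative (E d),
        (Finset.univ.filter (fun k : KS S => prK S k = e')).card := by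
      rw [← Finset.card_univ]
      exact Finset.card_eq_sum_card_fiberwise (fun x _ => Finset.mem_coe.2 (Finset.mem_univ _))
    rw [h3]
    rw [Finset.sum_congr rfl fun e' _ => h2 e', Finset.sum_const, Finset.card_univ]
    have h4 : Fintype.card (Multiplicative (E d)) = 2 ^ d := by
      rw [Fintype.card_multiplicative]; simp [ZMod.card]
    rw [h4, smul_eq_mul]
    push_cast
    ring
  rw [Finset.sum_congr rfl fun k _ => h1 k, Finset.sum_add_distrib, Finset.sum_comm]
  have h5 : ∀ j ∈ S, (∑ k : KS S, if (prK S k = Multiplicative.ofAdd j.1) then (4 : ℝ) else 0)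
      = 4 * (Fintype.card (KS S) / 2 ^ d) := by
    intro j _
    rw [← Finset.sum_filter, Finset.sum_const, nsmul_eq_mul]
    have h6 := hfib (Multiplicative.ofAdd j.1)
    have h7 : (0 : ℝ) < 2 ^ d := by positivity
    rw [← h6]
    field_simp
  rw [Finset.sum_congr rfl h5, Finset.sum_const, Finset.sum_const, Finset.card_univ, nsmul_eq_mul,
    nsmul_eq_mul]
  ring

/-- the homocyclic group -/
abbrev CC (n N : ℕ) : Type := Multiplicative (Fin n → ZMod N)

lemma cc_order {n N : ℕ} (c : CC n N) : orderOf c ∣ N := by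
  apply orderOf_dvd_of_pow_eq_one
  show Multiplicative.ofAdd (N • Multiplicative.toAdd c) = 1
  have : N • Multiplicative.toAdd c = 0 := by
    funext i
    simp
  rw [this]; rfl

lemma cc_order_good {n N : ℕ} (c : CC n N) (i : Fin n) (hc : Multiplicative.toAdd c i = 1) :
    orderOf c = N := by
  apply Nat.dvd_antisymm (cc_order c)
  have h : c ^ orderOf c = 1 := pow_orderOf_eq_one c
  have h2 : orderOf c • Multiplicative.toAdd c = 0 := h
  have h3 := congrFun h2 i
  simp only [Pi.smul_apply, hc, nsmul_eq_mul, mul_one, Pi.zero_apply] at h3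
  exact (ZMod.natCast_eq_zero_iff _ _).1 h3

open Classical in
lemma bad_card (n N : ℕ) [NeZero N] :
    ((Finset.univ.filter (fun c : CC n N => ¬ ∃ i, Multiplicative.toAdd c i = 1)).card : ℝ)
      = (1 - 1 / N) ^ n * Fintype.card (CC n N) := by
  have h1 : (Finset.univ.filter (fun c : CC n N => ¬ ∃ i, Multiplicative.toAdd c i = 1)).card
      = Fintype.card (Fin n → {x : ZMod N // x ≠ 1}) := by
    rw [← Fintype.card_subtype]
    apply Fintype.card_congr
    refine ⟨fun c i => ⟨Multiplicative.toAdd c.1 i, fun h => c.2 ⟨i, h⟩⟩,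
      fun g => ⟨Multiplicative.ofAdd (fun i => (g i).1), ?_⟩, ?_, ?_⟩
    · rintro ⟨i, hi⟩
      exact (g i).2 hi
    · intro c; rfl
    · intro g; rfl
  have hN : 0 < N := Nat.pos_of_ne_zero (NeZero.ne N)
  have h2 : Fintype.card {x : ZMod N // x ≠ 1} = N - 1 := by
    rw [Fintype.card_subtype_compl, Fintype.card_subtype_eq, ZMod.card]
  rw [h1, Fintype.card_fun, h2, Fintype.card_fin]
  have h3 : Fintype.card (CC n N) = N ^ n := by
    rw [Fintype.card_multiplicative, Fintype.card_fun, ZMod.card, Fintype.card_fin]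
  rw [h3]
  have hN' : (N : ℝ) ≠ 0 := by positivity
  push_cast [Nat.cast_sub (show 1 ≤ N from hN)]
  rw [← mul_pow]
  congr 1
  field_simp

/-- The main estimate. -/
lemma main (m : ℕ) (hm : Odd m) (D : Type) [Group D] [Fintype D] (r : D → ℕ)
    (hr : ∀ s, Odd (r s)) (hD : ∀ s, Nat.lcm (4 * m) (orderOf s) = 4 * (m * r s))
    (R : ℝ) (hR : R * Fintype.card D = m * ∑ s, (r s : ℝ)) (hR0 : 0 < R)
    (t : ℝ) (h1 : 4 * R < t) (h2 : t < 8 * R) (ε : ℝ) (hε : 0 < ε) :
    ∃ (G : Type) (_ : Group G) (_ : Fintype G), t - ε < avgOrder G ∧ avgOrder G ≤ t := by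
  classical
  -- choose the dyadic proportion
  obtain ⟨d, hd⟩ : ∃ d : ℕ, 4 * R * (1 / 2) ^ d < ε / 2 := by
    have h := tendsto_pow_atTop_nhds_zero_of_lt_one (r := (1 / 2 : ℝ)) (by norm_num) (by norm_num)
    have h' := (h.const_mul (4 * R)).eventually (gt_mem_nhds (show 4 * R * 0 < ε / 2 by simpa using half_pos hε))
    obtain ⟨d, hd⟩ := h'.exists
    exact ⟨d, hd⟩
  set ρ0 : ℝ := t / (4 * R) - 1 with hρ0
  have hρ0p : 0 < ρ0 := by
    rw [hρ0, sub_pos, lt_div_iff₀ (by positivity)]; linarith
  have hρ1 : ρ0 < 1 := by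
    rw [hρ0, sub_lt_iff_lt_add, div_lt_iff₀ (by positivity)]; linarith
  set j : ℕ := ⌊ρ0 * 2 ^ d⌋₊ with hj
  have hjle : (j : ℝ) ≤ ρ0 * 2 ^ d := Nat.floor_le (by positivity)
  have hjlt : ρ0 * 2 ^ d < j + 1 := Nat.lt_floor_add_one _
  have hj2 : j ≤ Fintype.card {j : E d // j ≠ 0} := by
    have hc : Fintype.card {j : E d // j ≠ 0} = 2 ^ d - 1 := by
      rw [Fintype.card_subtype_compl, Fintype.card_subtype_eq]
      simp [ZMod.card]
    rw [hc]
    have : j < 2 ^ d := by
      have h3 : (j : ℝ) < 2 ^ d := lt_of_le_of_lt hjle (by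
        have : (0 : ℝ) < 2 ^ d := by positivity
        nlinarith)
      exact_mod_cast h3
    omega
  obtain ⟨S, _, hS⟩ := Finset.exists_subset_card_eq (s := (Finset.univ : Finset {j : E d // j ≠ 0}))
    (n := j) (by rw [Finset.card_univ]; exact hj2)
  set ρ : ℝ := (S.card : ℝ) / 2 ^ d with hρ
  set w : ℝ := 4 * (1 + ρ) * R with hw
  have hρle : ρ ≤ ρ0 := by
    rw [hρ, hS, div_le_iff₀ (by positivity)]; exact hjle
  have hρge : ρ0 - (1 / 2) ^ d < ρ := by
    rw [hρ, hS, lt_div_iff₀ (by positivity), sub_mul, ← mul_pow]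
    norm_num
    linarith
  have hwt : w ≤ t := by
    have h3 : 4 * (1 + ρ0) * R = t := by rw [hρ0]; field_simp; ring
    rw [hw, ← h3]
    nlinarith
  have hwt2 : t - ε / 2 < w := by
    have h3 : 4 * (1 + ρ0) * R = t := by rw [hρ0]; field_simp; ring
    rw [hw, ← h3]
    nlinarith
  have hρnn : 0 ≤ ρ := by positivity
  have hw0 : 0 < w := by rw [hw]; positivity
  -- choose the rank of the homocyclic group
  have hm0 : 0 < m := hm.pos
  have : NeZero (4 * m) := ⟨by positivity⟩
  obtain ⟨n, hn⟩ : ∃ n : ℕ, w * (1 - 1 / ((4 * m : ℕ) : ℝ)) ^ n < ε / 2 := by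
    have hN : (1 : ℝ) < ((4 * m : ℕ) : ℝ) := by
      have : 1 < 4 * m := by omega
      exact_mod_cast this
    have h := tendsto_pow_atTop_nhds_zero_of_lt_one (r := (1 - 1 / ((4 * m : ℕ) : ℝ)))
      (by
        rw [sub_nonneg, div_le_one (by linarith)]; exact hN.le)
      (by
        have : 0 < 1 / ((4 * m : ℕ) : ℝ) := by positivity
        linarith)
    have h' := (h.const_mul w).eventually (gt_mem_nhds (show w * 0 < ε / 2 by simpa using half_pos hε))
    obtain ⟨n, hn⟩ := h'.exists
    exact ⟨n, hn⟩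
  let _ : Fintype (KS S) := Fintype.ofFinite _
  have hK : ∀ k : KS S, k ^ 8 = 1 := powK_eight
  have hdvd : ∀ b : CC n (4 * m) × D, orderOf b ∣ 4 * (m * r b.2) := by
    rintro ⟨c, s⟩
    rw [Prod.orderOf, ← hD s]
    exact Nat.lcm_dvd ((cc_order c).trans (Nat.dvd_lcm_left _ _)) (Nat.dvd_lcm_right _ _)
  have hgood : ∀ b : CC n (4 * m) × D, (∃ i, Multiplicative.toAdd b.1 i = 1) →
      orderOf b = 4 * (m * r b.2) := by
    rintro ⟨c, s⟩ ⟨i, hi⟩
    rw [Prod.orderOf, ← hD s]
    simp only at hi ⊢
    rw [cc_order_good c i hi]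
  have hpos : ∀ b : CC n (4 * m) × D, 0 < m * r b.2 := fun b => Nat.mul_pos hm0 (hr _).pos
  have hsplit : ∀ (f : CC n (4 * m) → ℝ), (∑ b : CC n (4 * m) × D, f b.1 * ((m * r b.2 : ℕ) : ℝ))
      = (∑ c, f c) * (R * Fintype.card D) := by
    intro f
    rw [Fintype.sum_prod_type, hR, Finset.sum_mul]
    refine Finset.sum_congr rfl fun c _ => ?_
    simp only
    rw [← Finset.mul_sum]
    push_cast
    rw [← Finset.mul_sum]
  refine ⟨KS S × (CC n (4 * m) × D), inferInstance, inferInstance, ?_, ?_⟩
  · -- lower bound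
    have hlow : (∑ k : KS S, (wt k : ℝ)) *
        ((∑ c : CC n (4 * m), if (∃ i, Multiplicative.toAdd c i = 1) then (1 : ℝ) else 0)
          * (R * Fintype.card D)) ≤ (psi (KS S × (CC n (4 * m) × D)) : ℝ) := by
      rw [← hsplit, Finset.sum_mul]
      unfold psi
      push_cast
      rw [Fintype.sum_prod_type (fun g : KS S × (CC n (4 * m) × D) => (orderOf g : ℝ))]
      refine Finset.sum_le_sum fun k _ => ?_
      rw [Finset.mul_sum]
      refine Finset.sum_le_sum fun b _ => ?_
      by_cases hb : ∃ i, Multiplicative.toAdd b.1 i = 1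
      · rw [if_pos hb, one_mul, order_eq hK k b (m * r b.2) (hm.mul (hr _)) (hgood b hb)]
        push_cast
        exact le_refl _
      · rw [if_neg hb]
        simp
    have hsum1 : (∑ c : CC n (4 * m), if (∃ i, Multiplicative.toAdd c i = 1) then (1 : ℝ) else 0)
        = (1 - (1 - 1 / ((4 * m : ℕ) : ℝ)) ^ n) * Fintype.card (CC n (4 * m)) := by
      have h3 : (∑ c : CC n (4 * m), if (∃ i, Multiplicative.toAdd c i = 1) then (1 : ℝ) else 0)
          + ((Finset.univ.filter
            (fun c : CC n (4 * m) => ¬ ∃ i, Multiplicative.toAdd c i = 1)).card : ℝ)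
          = Fintype.card (CC n (4 * m)) := by
        rw [Finset.sum_boole, ← Nat.cast_add, Finset.card_filter_add_card_filter_not,
          Finset.card_univ]
      rw [bad_card] at h3
      linarith
    rw [hsum1, sum_wt] at hlow
    unfold avgOrder
    have hcard : (Fintype.card (KS S × (CC n (4 * m) × D)) : ℝ)
        = Fintype.card (KS S) * (Fintype.card (CC n (4 * m)) * Fintype.card D) := by
      rw [Fintype.card_prod, Fintype.card_prod]; push_cast; ring
    have hcp : (0 : ℝ) < Fintype.card (KS S × (CC n (4 * m) × D)) := by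
      exact_mod_cast Fintype.card_pos
    rw [lt_div_iff₀ hcp]
    refine lt_of_lt_of_le ?_ hlow
    have h4 : 4 * (1 + (S.card : ℝ) / 2 ^ d) * Fintype.card (KS S) *
        ((1 - (1 - 1 / ((4 * m : ℕ) : ℝ)) ^ n) * Fintype.card (CC n (4 * m))
          * (R * Fintype.card D))
        = (w - w * (1 - 1 / ((4 * m : ℕ) : ℝ)) ^ n)
          * Fintype.card (KS S × (CC n (4 * m) × D)) := by
      rw [hcard, hw, hρ]; ring
    rw [h4]
    apply mul_lt_mul_of_pos_right _ hcp
    linarith
  · -- upper bound
    have hup : (psi (KS S × (CC n (4 * m) × D)) : ℝ) ≤ (∑ k : KS S, (wt k : ℝ)) *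
        ((∑ c : CC n (4 * m), (1 : ℝ)) * (R * Fintype.card D)) := by
      rw [← hsplit, Finset.sum_mul]
      unfold psi
      push_cast
      rw [Fintype.sum_prod_type (fun g : KS S × (CC n (4 * m) × D) => (orderOf g : ℝ))]
      refine Finset.sum_le_sum fun k _ => ?_
      rw [Finset.mul_sum]
      refine Finset.sum_le_sum fun b _ => ?_
      rw [one_mul]
      have h3 := Nat.le_of_dvd (by
        have : 0 < wt k := by unfold wt; split_ifs <;> norm_num
        exact Nat.mul_pos this (hpos b)) (order_dvd hK k b (m * r b.2) (hdvd b))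
      exact_mod_cast h3
    rw [sum_wt] at hup
    unfold avgOrder
    have hcard : (Fintype.card (KS S × (CC n (4 * m) × D)) : ℝ)
        = Fintype.card (KS S) * (Fintype.card (CC n (4 * m)) * Fintype.card D) := by
      rw [Fintype.card_prod, Fintype.card_prod]; push_cast; ring
    have hcp : (0 : ℝ) < Fintype.card (KS S × (CC n (4 * m) × D)) := by
      exact_mod_cast Fintype.card_pos
    rw [div_le_iff₀ hcp]
    refine hup.trans ?_
    rw [Finset.sum_const, Finset.card_univ, nsmul_eq_mul, mul_one]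
    have h4 : 4 * (1 + (S.card : ℝ) / 2 ^ d) * Fintype.card (KS S) *
        (Fintype.card (CC n (4 * m)) * (R * Fintype.card D))
        = w * Fintype.card (KS S × (CC n (4 * m) × D)) := by
      rw [hcard, hw, hρ]; ring
    rw [h4]
    exact mul_le_mul_of_nonneg_right hwt hcp.le

/-- odd factor -/
lemma main_odd (m : ℕ) (hm : Odd m) (t : ℝ) (h1 : 4 * (m : ℝ) < t) (h2 : t < 8 * m) (ε : ℝ)
    (hε : 0 < ε) :
    ∃ (G : Type) (_ : Group G) (_ : Fintype G), t - ε < avgOrder G ∧ avgOrder G ≤ t := by
  refine main m hm PUnit (fun _ => 1) (fun _ => odd_one) (fun s => ?_) m ?_ ?_ t h1 h2 ε hε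
  · have : orderOf s = 1 := by
      rw [orderOf_eq_one_iff]
    rw [this, mul_one, Nat.lcm_one_right]
  · simp
  · exact_mod_cast hm.pos

lemma perm3 : ∀ s : Equiv.Perm (Fin 3), s ^ 2 = 1 ∨ s ^ 3 = 1 := by decide
lemma perm3_sum : ∑ s : Equiv.Perm (Fin 3), (if s ^ 2 = 1 then 1 else 3 : ℕ) = 10 := by decide

/-- factor `5/3` from the symmetric group of degree three -/
lemma main_sym (t : ℝ) (h1 : 4 * (5 / 3 : ℝ) < t) (h2 : t < 8 * (5 / 3)) (ε : ℝ)
    (hε : 0 < ε) :
    ∃ (G : Type) (_ : Group G) (_ : Fintype G), t - ε < avgOrder G ∧ avgOrder G ≤ t := by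
  refine main 1 odd_one (Equiv.Perm (Fin 3)) (fun s => if s ^ 2 = 1 then 1 else 3) (fun s => ?_)
    (fun s => ?_) (5 / 3) ?_ (by norm_num) t h1 h2 ε hε
  · split_ifs
    · exact odd_one
    · exact ⟨1, rfl⟩
  · by_cases h : s ^ 2 = 1
    · simp only [h, if_true]
      have h3 : orderOf s ∣ 4 := (orderOf_dvd_of_pow_eq_one h).trans (by norm_num)
      exact Nat.lcm_eq_left h3
    · simp only [h, if_false]
      have h3 : orderOf s = 3 := by
        have : Fact (Nat.Prime 3) := ⟨Nat.prime_three⟩
        apply orderOf_eq_prime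
        · exact (perm3 s).resolve_left h
        · rintro rfl; exact h (one_pow 2)
      rw [h3]
      decide
  · have hcard : Fintype.card (Equiv.Perm (Fin 3)) = 6 := by
      rw [Fintype.card_perm, Fintype.card_fin]; rfl
    have hs : (∑ s : Equiv.Perm (Fin 3), ((if s ^ 2 = 1 then 1 else 3 : ℕ) : ℝ)) = 10 := by
      have := perm3_sum
      exact_mod_cast congrArg (fun z : ℕ => (z : ℝ)) this
    rw [hcard, hs]
    norm_num

/-- The set of average orders of finite groups is dense in `[4, ∞)`: every nonempty open interval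
contained in `[4, ∞)` contains the average order of a finite group. -/
theorem result : ∀ u v : ℝ, 4 ≤ u → u < v →
    ∃ (G : Type) (_ : Group G) (_ : Fintype G), u < avgOrder G ∧ avgOrder G < v := by
  intro u v hu huv
  -- the midpoint of `(u, v)` is a limit of average orders
  suffices h : ∃ t, u < t ∧ t < v ∧ ∀ ε : ℝ, 0 < ε →
      ∃ (G : Type) (_ : Group G) (_ : Fintype G), t - ε < avgOrder G ∧ avgOrder G ≤ t by
    obtain ⟨t, h1, h2, h3⟩ := h
    obtain ⟨G, i1, i2, h4, h5⟩ := h3 (t - u) (sub_pos.2 h1)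
    exact ⟨G, i1, i2, by linarith, by linarith⟩
  set t := (u + v) / 2 with ht
  have ht1 : u < t := by rw [ht]; linarith
  have ht2 : t < v := by rw [ht]; linarith
  have ht4 : 4 < t := lt_of_le_of_lt hu ht1
  refine ⟨t, ht1, ht2, fun ε hε => ?_⟩
  by_cases h8 : t < 8
  · exact main_odd 1 odd_one t (by push_cast; linarith) (by push_cast; linarith) ε hε
  by_cases h12 : t ≤ 12
  · exact main_sym t (by linarith) (by linarith) ε hε
  push Not at h8 h12
  by_cases h24 : t < 24
  · exact main_odd 3 ⟨1, rfl⟩ t (by push_cast; linarith) (by push_cast; linarith) ε hε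
  push Not at h24
  -- an odd integer in `(t/8, t/4)`
  set q : ℕ := ⌊t / 16⌋₊ with hq
  have hq1 : (q : ℝ) ≤ t / 16 := Nat.floor_le (by positivity)
  have hq2 : t / 16 < q + 1 := Nat.lt_floor_add_one _
  refine main_odd (2 * q + 3) ⟨q + 1, by ring⟩ t ?_ ?_ ε hε
  · push_cast
    by_cases h36 : t < 32
    · have : q = 1 := by
        have h3 : (q : ℝ) < 2 := by linarith
        have h4 : (0 : ℝ) < q := by linarith
        have h3' : q < 2 := by exact_mod_cast h3
        have h4' : 0 < q := by exact_mod_cast h4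
        omega
      rw [this]
      norm_num
      linarith
    · push Not at h36
      linarith
  · push_cast
    linarith

end Pool.Agent.Results.MP_d1f1b8_al.Dense
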